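import Mathlib
import Pool.Agent.W203.SP.Stm
set_option autoImplicit false

/-! Fourier inversion for the kernel of the subordination formula. -/

namespace Pool.Agent.W584.SP

open MeasureTheory Set Complex
open scoped ENNReal NNReal FourierTransform RealInnerProductSpace ContDiff
open Pool.Agent.W203.SP

lemma contDiff_h {η : ℝ → ℂ} (hη : GoodAmp η) (t : ℝ) :
    ContDiff ℝ ∞ (fun p : ℝ => η p * ee (t * Real.sqrt p)) := by
  obtain ⟨hs, a, b, ha, hab, h0⟩ := hη
  rw [contDiff_iff_contDiffAt]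
  intro p
  by_cases hp : 0 < p
  · have h1 : ContDiffAt ℝ ∞ (fun p : ℝ => ee (t * Real.sqrt p)) p := by
      unfold ee
      have h2 : ContDiffAt ℝ ∞ (fun p : ℝ => 2 * Real.pi * (t * Real.sqrt p)) p :=
        contDiffAt_const.mul (contDiffAt_const.mul (Real.contDiffAt_sqrt hp.ne'))
      have h3 : ContDiffAt ℝ ∞ (fun p : ℝ => ((2 * Real.pi * (t * Real.sqrt p) : ℝ) : ℂ)) p :=
        (Complex.ofRealCLM.contDiff.contDiffAt (x := 2 * Real.pi * (t * Real.sqrt p))).comp p h2
      exact (h3.mul contDiffAt_const).cexp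
    exact hs.contDiffAt.mul h1
  · have h1 : (fun p : ℝ => η p * ee (t * Real.sqrt p)) =ᶠ[nhds p] fun _ => 0 := by
      filter_upwards [Iio_mem_nhds (show p < a by linarith)] with x hx
      rw [h0 x (fun hh => absurd hh.1 (not_le.mpr hx)), zero_mul]
    exact contDiffAt_const.congr_of_eventuallyEq h1

lemma supp_h {η : ℝ → ℂ} (hη : GoodAmp η) (t : ℝ) :
    HasCompactSupport (fun p : ℝ => η p * ee (t * Real.sqrt p)) := by
  obtain ⟨hs, a, b, ha, hab, h0⟩ := hη
  refine HasCompactSupport.intro (isCompact_Icc (a := a) (b := b)) ?_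
  intro p hp
  rw [h0 p hp, zero_mul]

lemma kap_eq (η : ℝ → ℂ) (t r : ℝ) :
    kap η t r = 𝓕 (fun p : ℝ => η p * ee (t * Real.sqrt p)) r := by
  unfold kap
  rw [Real.fourier_real_eq_integral_exp_smul]
  refine integral_congr_ae (Filter.Eventually.of_forall fun p => ?_)
  simp only [smul_eq_mul]
  have : ee (t * Real.sqrt p - r * p) = cexp (((-2 * Real.pi * p * r : ℝ) : ℂ) * I) * ee (t * Real.sqrt p) := by
    unfold ee
    rw [← Complex.exp_add]
    congr 1
    push_cast
    ring
  rw [this]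
  ring

theorem t_K1 : S_K1 := by
  intro η hη t
  set h : ℝ → ℂ := fun p : ℝ => η p * ee (t * Real.sqrt p) with hh
  let H : SchwartzMap ℝ ℂ := (supp_h hη t).toSchwartzMap (contDiff_h hη t)
  have hH : (H : ℝ → ℂ) = h := rfl
  have hk : kap η t = (𝓕 H : SchwartzMap ℝ ℂ) := by
    funext r
    rw [kap_eq, SchwartzMap.fourier_coe]
    rfl
  have hc : Continuous (kap η t) := by rw [hk]; exact SchwartzMap.continuous _
  have hi : Integrable (kap η t) := by rw [hk]; exact SchwartzMap.integrable _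
  refine ⟨hc, hi, ?_⟩
  intro p
  have hk2 : kap η t = 𝓕 h := by funext r; exact kap_eq η t r
  have h1 : Continuous h := (contDiff_h hη t).continuous
  have h2 : Integrable h := by rw [← hH]; exact SchwartzMap.integrable _
  have h3 : 𝓕⁻ (𝓕 h) = h := h1.fourierInv_fourier_eq h2 (by rw [← hk2]; exact hi)
  have h4 : ∫ r, kap η t r * ee (r * p) = 𝓕⁻ (𝓕 h) p := by
    rw [Real.fourierInv_eq', ← hk2]
    refine integral_congr_ae (Filter.Eventually.of_forall fun r => ?_)
    simp only [smul_eq_mul, ee]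
    rw [mul_comm]
    congr 3
    simp
    ring
  rw [h4, h3]

end Pool.Agent.W584.SP
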